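import Pool.Agent.H12Z.CorMain

set_option autoImplicit false

open MeasureTheory Pool.Agent.H12Z.Cor

/-- There is a compact metrizable abelian group `G` whose measure algebra `M(G)` is not a cortex
algebra: some character `φ` of `M(G)` has finitely many elements of its kernel that are not joint
topological divisors of zero. The first two clauses record that addition is measurable and that
every complex Borel measure on `G` has finite, regular total variation. -/
theorem Pool.Agent.Results.MP_4cde56_an.NotCortex.result :
    ∃ (G : Type) (_ : AddCommGroup G) (_ : TopologicalSpace G) (_ : IsTopologicalAddGroup G)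
      (_ : CompactSpace G) (_ : T2Space G) (_ : SecondCountableTopology G)
      (_ : MeasurableSpace G) (_ : BorelSpace G),
      Measurable (fun p : G × G => p.1 + p.2) ∧
      (∀ μ : ComplexMeasure G, IsFiniteMeasure μ.variation ∧ μ.variation.Regular) ∧
      ∃ φ : ComplexMeasure G →ₗ[ℂ] ℂ, φ ≠ 0 ∧ (∀ μ ν, φ (conv μ ν) = φ μ * φ ν) ∧
        ∃ (n : ℕ) (μ : Fin n → ComplexMeasure G) (c : ℝ), 0 < c ∧ (∀ j, φ (μ j) = 0) ∧
          ∀ ν : ComplexMeasure G, tv ν = 1 → c ≤ ∑ j, tv (conv (μ j) ν) := by
  refine ⟨GG, inferInstance, inferInstance, inferInstance, inferInstance, inferInstance,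
    inferInstance, inferInstance, inferInstance, measurable_add, fun μ => ?_, main⟩
  have := fin_var μ
  exact ⟨this, inferInstance⟩
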